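import Pool.Agent.helper81.LA.Spec
import Pool.Agent.helper38.V3.KO0

/-!
# la:LM1 (MP_70a088_an): composition with convergent univalent maps is continuous in measure
-/

set_option autoImplicit false

open Complex Metric Set Filter Topology MeasureTheory
open JX

noncomputable section

namespace LAT

theorem LM1_det (A : ℂ →L[ℂ] ℂ) : (A.restrictScalars ℝ).det = ‖A 1‖ ^ 2 := by
  have h1 : (A.restrictScalars ℝ).det = LinearMap.det ((A : ℂ →ₗ[ℂ] ℂ).restrictScalars ℝ) := rfl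
  rw [h1, LinearMap.det_restrictScalars, Algebra.norm_complex_apply, LinearMap.det_ring,
    Complex.sq_norm]
  rfl

/-- change of variables. -/
theorem LM1_cov (h : ℂ → ℂ) (s m : ℝ) (φ : ℂ → ENNReal) (hm : 0 < m) (hs : s ≤ 1) (hd : DifferentiableOn ℂ h (ball 0 1))
    (hi : InjOn h (ball 0 1)) (hb : ∀ z ∈ ball (0 : ℂ) s, m ≤ ‖deriv h z‖) :
    ENNReal.ofReal (m ^ 2) * ∫⁻ z in ball (0 : ℂ) s, φ (h z) ≤ ∫⁻ z in h '' ball (0 : ℂ) s, φ z := by
  have hsub : ball (0 : ℂ) s ⊆ ball 0 1 := ball_subset_ball hs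
  have hder : ∀ z ∈ ball (0 : ℂ) s, HasFDerivWithinAt h ((ContinuousLinearMap.toSpanSingleton ℂ (deriv h z) : ℂ →L[ℂ] ℂ).restrictScalars ℝ) (ball (0 : ℂ) s) z := by
    intro z hz
    have h1 : HasDerivAt h (deriv h z) z := (hd.differentiableAt (isOpen_ball.mem_nhds (hsub hz))).hasDerivAt
    have h2 : HasFDerivAt h (ContinuousLinearMap.toSpanSingleton ℂ (deriv h z) : ℂ →L[ℂ] ℂ) z := h1.hasFDerivAt
    exact (h2.restrictScalars ℝ).hasFDerivWithinAt
  rw [lintegral_image_eq_lintegral_abs_det_fderiv_mul volume measurableSet_ball hder (hi.mono hsub)]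
  rw [← lintegral_const_mul' _ _ ENNReal.ofReal_ne_top]
  apply setLIntegral_mono' measurableSet_ball
  intro z hz
  refine mul_le_mul_left ?_ _
  apply ENNReal.ofReal_le_ofReal
  rw [LM1_det, abs_of_nonneg (by positivity)]
  have h3 : (ContinuousLinearMap.toSpanSingleton ℂ (deriv h z) : ℂ →L[ℂ] ℂ) 1 = deriv h z := by simp
  rw [h3]
  exact pow_le_pow_left₀ hm.le (hb z hz) 2

theorem LM1 : LM1_stmt := by
  intro μ g gk hμm hμb hg hgi hgk hlu s hs
  have hsub : closedBall (0 : ℂ) s ⊆ ball 0 1 := closedBall_subset_ball hs.2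
  have hsub' : ball (0 : ℂ) s ⊆ ball 0 1 := ball_subset_ball hs.2.le
  have hdlu : TendstoLocallyUniformlyOn (deriv ∘ gk) (deriv g) atTop (ball 0 1) :=
    hlu.deriv (Eventually.of_forall fun k => (hgk k).1) isOpen_ball
  have hdu : TendstoUniformlyOn (deriv ∘ gk) (deriv g) atTop (closedBall 0 s) :=
    (tendstoLocallyUniformlyOn_iff_forall_isCompact isOpen_ball).1 hdlu _ hsub (isCompact_closedBall 0 s)
  have hgu : TendstoUniformlyOn gk g atTop (closedBall 0 s) :=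
    (tendstoLocallyUniformlyOn_iff_forall_isCompact isOpen_ball).1 hlu _ hsub (isCompact_closedBall 0 s)
  have hcd : ContinuousOn (deriv g) (ball 0 1) := (hg.deriv isOpen_ball).continuousOn
  obtain ⟨R, hR⟩ := (isCompact_closedBall (0 : ℂ) s).exists_bound_of_continuousOn (hg.continuousOn.mono hsub)
  -- lower bound of the derivative
  obtain ⟨m, hm0, hm⟩ : ∃ m > (0 : ℝ), ∀ z ∈ closedBall (0 : ℂ) s, 2 * m ≤ ‖deriv g z‖ := by
    obtain ⟨z0, hz0, hmin⟩ := (isCompact_closedBall (0 : ℂ) s).exists_isMinOn ⟨0, mem_closedBall_self hs.1.le⟩ ((hcd.mono hsub).norm)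
    have hne : deriv g z0 ≠ 0 := by
      have hz1 : z0 ∈ ball (0 : ℂ) 1 := hsub hz0
      have hr : 0 < 1 - dist z0 0 := by
        have := mem_ball.1 hz1
        linarith
      have hb : ball z0 (1 - dist z0 0) ⊆ ball 0 1 := ball_subset_ball' (by linarith)
      exact V3.KO0_deriv hr (hg.mono hb) (hgi.mono hb)
    refine ⟨‖deriv g z0‖ / 2, by positivity, fun z hz => ?_⟩
    have := hmin hz
    simp only [mem_ofPred_eq] at this
    linarith
  have hmg : AEMeasurable g (volume.restrict (ball (0 : ℂ) s)) := (hg.continuousOn.mono hsub').aemeasurable measurableSet_ball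
  have hmgk : ∀ k, AEMeasurable (gk k) (volume.restrict (ball (0 : ℂ) s)) := fun k => ((hgk k).1.continuousOn.mono hsub').aemeasurable measurableSet_ball
  set V : ENNReal := volume (ball (0 : ℂ) s) with hV
  have hVt : V ≠ ⊤ := measure_ball_lt_top.ne
  set M : ENNReal := ENNReal.ofReal (m ^ 2) with hM
  have hM0 : M ≠ 0 := by
    rw [hM]
    exact (ENNReal.ofReal_pos.2 (by positivity)).ne'
  have hMt : M ≠ ⊤ := ENNReal.ofReal_ne_top
  -- the truncated function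
  set K : Set ℂ := closedBall 0 (R + 1) with hK
  have hKm : MeasurableSet K := measurableSet_closedBall
  set ν : ℂ → ℂ := K.indicator μ with hν
  have hνi : Integrable ν := by
    rw [hν, integrable_indicator_iff hKm]
    refine ⟨hμm.aestronglyMeasurable, ?_⟩
    refine HasFiniteIntegral.restrict_of_bounded (C := 1) ?_ ?_
    · exact measure_closedBall_lt_top
    · exact Eventually.of_forall fun z => hμb z
  rw [ENNReal.tendsto_nhds_zero]
  intro ε hε
  -- choose the approximation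
  obtain ⟨δ, hδ0, hδ⟩ : ∃ δ : ENNReal, δ ≠ 0 ∧ M⁻¹ * δ + M⁻¹ * δ ≤ ε / 2 := by
    by_cases hεt : ε = ⊤
    · refine ⟨1, one_ne_zero, ?_⟩
      rw [hεt]
      simp [ENNReal.top_div_of_ne_top]
    refine ⟨M * (ε / 4), mul_ne_zero hM0 (ENNReal.div_pos hε.ne' (by norm_num)).ne', ?_⟩
    rw [← mul_assoc, ENNReal.inv_mul_cancel hM0 hMt, one_mul]
    have : ε / 4 + ε / 4 = ε / 2 := by
      have h4 : (4 : ENNReal) = 2 * 2 := by norm_num
      rw [h4, ENNReal.div_eq_inv_mul, ENNReal.mul_inv (by norm_num) (by norm_num), ENNReal.div_eq_inv_mul, ← add_mul, ← mul_add, ENNReal.inv_two_add_inv_two, mul_one]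
    exact this.le
  obtain ⟨ψ, hψs, hψa, hψc, hψi⟩ := hνi.exists_hasCompactSupport_lintegral_sub_le hδ0
  have hψu : UniformContinuous ψ := hψs.uniformContinuous_of_continuous hψc
  obtain ⟨ε', hε'0, hε'⟩ : ∃ ε' > (0 : ℝ), ENNReal.ofReal ε' * V ≤ ε / 2 := by
    by_cases hεt : ε = ⊤
    · refine ⟨1, one_pos, ?_⟩
      rw [hεt]
      simp [ENNReal.top_div_of_ne_top]
    have hVr : 0 ≤ V.toReal := ENNReal.toReal_nonneg
    have hεr : 0 < (ε / 2).toReal := ENNReal.toReal_pos (ENNReal.div_pos hε.ne' (by norm_num)).ne' (ENNReal.div_lt_top hεt (by norm_num)).ne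
    refine ⟨(ε / 2).toReal / (V.toReal + 1), by positivity, ?_⟩
    have h1 : V = ENNReal.ofReal V.toReal := (ENNReal.ofReal_toReal hVt).symm
    have h2 : ε / 2 = ENNReal.ofReal (ε / 2).toReal := (ENNReal.ofReal_toReal (ENNReal.div_lt_top hεt (by norm_num)).ne).symm
    rw [h1, ← ENNReal.ofReal_mul (by positivity), ENNReal.toReal_ofReal hVr]
    conv_rhs => rw [h2]
    apply ENNReal.ofReal_le_ofReal
    rw [div_mul_eq_mul_div, div_le_iff₀ (by positivity)]
    nlinarith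
  obtain ⟨η, hη0, hη⟩ := Metric.uniformContinuous_iff.1 hψu ε' hε'0
  have e1 := Metric.tendstoUniformlyOn_iff.1 hdu m hm0
  have e2 := Metric.tendstoUniformlyOn_iff.1 hgu (min η 1) (lt_min hη0 one_pos)
  filter_upwards [e1, e2] with k hk1 hk2
  -- both images are in `K`
  have hgK : ∀ z ∈ ball (0 : ℂ) s, g z ∈ K := by
    intro z hz
    have := hR z (ball_subset_closedBall hz)
    rw [hK, mem_closedBall_zero_iff]
    linarith
  have hgkK : ∀ z ∈ ball (0 : ℂ) s, gk k z ∈ K := by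
    intro z hz
    have h1 := hR z (ball_subset_closedBall hz)
    have h2 := hk2 z (ball_subset_closedBall hz)
    rw [dist_eq_norm] at h2
    have h3 : ‖g z - gk k z‖ < 1 := lt_of_lt_of_le h2 (min_le_right _ _)
    rw [hK, mem_closedBall_zero_iff]
    have h4 : gk k z = g z - (g z - gk k z) := by ring
    rw [h4]
    exact (norm_sub_le _ _).trans (by linarith)
  -- the error of the approximation after composition
  have comp : ∀ h : ℂ → ℂ, DifferentiableOn ℂ h (ball 0 1) → InjOn h (ball 0 1) → (∀ z ∈ ball (0 : ℂ) s, m ≤ ‖deriv h z‖) → (∀ z ∈ ball (0 : ℂ) s, h z ∈ K) →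
      ∫⁻ z in ball (0 : ℂ) s, ‖μ (h z) - ψ (h z)‖ₑ ≤ M⁻¹ * δ := by
    intro h hhd hhi hhb hhK
    have h1 := LM1_cov h s m (fun z => ‖ν z - ψ z‖ₑ) hm0 hs.2.le hhd hhi hhb
    have h2 : ∫⁻ z in h '' ball (0 : ℂ) s, ‖ν z - ψ z‖ₑ ≤ δ := (setLIntegral_le_lintegral _ _).trans hψa
    have h3 : ∫⁻ z in ball (0 : ℂ) s, ‖μ (h z) - ψ (h z)‖ₑ = ∫⁻ z in ball (0 : ℂ) s, ‖ν (h z) - ψ (h z)‖ₑ := by
      apply setLIntegral_congr_fun measurableSet_ball
      intro z hz
      have : ν (h z) = μ (h z) := by rw [hν, indicator_of_mem (hhK z hz)]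
      simp only [this]
    rw [h3]
    have h4 := h1.trans h2
    calc ∫⁻ z in ball (0 : ℂ) s, ‖ν (h z) - ψ (h z)‖ₑ = M⁻¹ * (M * ∫⁻ z in ball (0 : ℂ) s, ‖ν (h z) - ψ (h z)‖ₑ) := by
          rw [← mul_assoc, ENNReal.inv_mul_cancel hM0 hMt, one_mul]
      _ ≤ M⁻¹ * δ := by gcongr
  have c1 := comp (gk k) (hgk k).1 (hgk k).2 (by
    intro z hz
    have h1 := hk1 z (ball_subset_closedBall hz)
    have h2 := hm z (ball_subset_closedBall hz)
    rw [dist_eq_norm] at h1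
    have h3 : ‖deriv g z‖ ≤ ‖deriv g z - (deriv ∘ gk) k z‖ + ‖(deriv ∘ gk) k z‖ := by
      have := norm_add_le (deriv g z - (deriv ∘ gk) k z) ((deriv ∘ gk) k z)
      rwa [sub_add_cancel] at this
    have h4 : ‖(deriv ∘ gk) k z‖ = ‖deriv (gk k) z‖ := rfl
    linarith) hgkK
  have c2 := comp g hg hgi (by
    intro z hz
    have h2 := hm z (ball_subset_closedBall hz)
    linarith) hgK
  have c3 : ∫⁻ z in ball (0 : ℂ) s, ‖ψ (gk k z) - ψ (g z)‖ₑ ≤ ENNReal.ofReal ε' * V := by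
    rw [hV, ← setLIntegral_const]
    apply setLIntegral_mono' measurableSet_ball
    intro z hz
    have h2 := hk2 z (ball_subset_closedBall hz)
    have h3 : dist (gk k z) (g z) < η := by
      rw [dist_comm]
      exact lt_of_lt_of_le h2 (min_le_left _ _)
    have h4 := hη h3
    rw [dist_eq_norm] at h4
    rw [← ofReal_norm]
    exact ENNReal.ofReal_le_ofReal h4.le
  have hptw : ∀ z : ℂ, ENNReal.ofReal ‖μ (gk k z) - μ (g z)‖ ≤ (‖μ (gk k z) - ψ (gk k z)‖ₑ + ‖ψ (gk k z) - ψ (g z)‖ₑ) + ‖μ (g z) - ψ (g z)‖ₑ := by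
    intro z
    rw [ofReal_norm]
    have h1 : μ (gk k z) - μ (g z) = ((μ (gk k z) - ψ (gk k z)) + (ψ (gk k z) - ψ (g z))) - (μ (g z) - ψ (g z)) := by ring
    rw [h1]
    refine (enorm_sub_le).trans ?_
    gcongr
    exact enorm_add_le _ _
  have mψ : Measurable ψ := hψc.measurable
  have a1 : AEMeasurable (fun z => ‖μ (gk k z) - ψ (gk k z)‖ₑ) (volume.restrict (ball (0 : ℂ) s)) :=
    ((hμm.comp_aemeasurable (hmgk k)).sub (mψ.comp_aemeasurable (hmgk k))).enorm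
  have a2 : AEMeasurable (fun z => ‖μ (g z) - ψ (g z)‖ₑ) (volume.restrict (ball (0 : ℂ) s)) :=
    ((hμm.comp_aemeasurable hmg).sub (mψ.comp_aemeasurable hmg)).enorm
  calc ∫⁻ z in ball (0 : ℂ) s, ENNReal.ofReal ‖μ (gk k z) - μ (g z)‖
      ≤ ∫⁻ z in ball (0 : ℂ) s, ((‖μ (gk k z) - ψ (gk k z)‖ₑ + ‖ψ (gk k z) - ψ (g z)‖ₑ) + ‖μ (g z) - ψ (g z)‖ₑ) := lintegral_mono fun z => hptw z
    _ = (∫⁻ z in ball (0 : ℂ) s, ‖μ (gk k z) - ψ (gk k z)‖ₑ) + (∫⁻ z in ball (0 : ℂ) s, ‖ψ (gk k z) - ψ (g z)‖ₑ) + ∫⁻ z in ball (0 : ℂ) s, ‖μ (g z) - ψ (g z)‖ₑ := by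
        rw [lintegral_add_right' _ a2, lintegral_add_left' a1]
    _ ≤ M⁻¹ * δ + ENNReal.ofReal ε' * V + M⁻¹ * δ := by gcongr
    _ = (M⁻¹ * δ + M⁻¹ * δ) + ENNReal.ofReal ε' * V := by ring
    _ ≤ ε / 2 + ε / 2 := by gcongr
    _ = ε := ENNReal.add_halves ε

end LAT

end
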